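import Pool.Agent.Y149.AR.All
import Pool.Agent.Y759.AR.Unr
import Pool.Agent.Y824.AR.Ft
import Pool.Agent.H484R2.Zeta
import Pool.Agent.Y922.AP.LInd

/-!
# L-functions of number fields: the solutions of `f(s) = a` at almost all algebraic levels `a`

`f` is the product of the Riemann xi function and of finitely many completed L-functions of primitive
ray class characters of arbitrary number fields (the completed Dedekind zeta functions of all number
fields included), real on the real axis.  We consider analytic branches `g_1(a), …, g_n(a)` of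
solutions of `f(s) = a` on a compact set of levels (for instance the branches starting at given
simple zeros of `f` on a small disc around `0`), and relations, even approximate ones, of bounded
degree between the numbers `g_i(a_l)` at several levels `a_1, …, a_N`, all of them elements of a
number field.

For a finite Galois extension `E` of `ℚ`, `L(s, χ, E/ℚ)` is the L-function of such a character for
every monomial irreducible character `χ ≠ 1` of the Galois group.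

Joint work of helper149 and helper922 (the theorem for Dirichlet characters, `oneLevels`), with
helper759 and helper824 (functional equation of the Dedekind zeta functions), on top of the library of
helper773 and helper772 on ray class characters; the counting theorem `excNF` is due to helper124.
-/

set_option autoImplicit false

open Filter Topology NumberField

namespace Pool.Agent.Results.MP_3b6604_nt.AlgebraicLevels

/-- The Riemann xi function: `ξ(s) = (s (s - 1) Λ₀(s) + 1) / 2 = s (s - 1) π^(-s/2) Γ(s/2) ζ(s) / 2`. -/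
noncomputable def xi (s : ℂ) : ℂ := (s * (s - 1) * completedRiemannZeta₀ s + 1) / 2

/-! ### Ray class characters of number fields -/

section hecke

variable (K : Type) [Field K] [NumberField K]

/-- `x` is totally positive. -/
def TotPos (x : 𝓞 K) : Prop := ∀ σ : K →+* ℝ, 0 < σ (x : K)

/-- `ψ`, a function on the ideals of `K`, is a primitive ray class character of conductor `𝔣` (times
some real places): multiplicative, zero exactly at the ideals not prime to `𝔣`, and `1` at the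
principal ideals of the totally positive `x ≡ 1 mod 𝔣`; this fails for every proper divisor `𝔤` of
`𝔣` in place of `𝔣`.  The trivial character (`𝔣 = (1)`) and the characters of the class group are
included. -/
structure IsPrimChar (𝔣 : Ideal (𝓞 K)) (ψ : Ideal (𝓞 K) →*₀ ℂ) : Prop where
  ne_bot : 𝔣 ≠ ⊥
  supp : ∀ 𝔞 : Ideal (𝓞 K), 𝔞 ≠ ⊥ → (ψ 𝔞 ≠ 0 ↔ IsCoprime 𝔞 𝔣)
  ray : ∀ x : 𝓞 K, x ≠ 0 → x - 1 ∈ 𝔣 → TotPos K x → ψ (Ideal.span {x}) = 1
  prim : ∀ 𝔤 : Ideal (𝓞 K), 𝔤 ∣ 𝔣 → 𝔤 ≠ 𝔣 →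
    ∃ x : 𝓞 K, x - 1 ∈ 𝔤 ∧ TotPos K x ∧ IsCoprime (Ideal.span {x}) 𝔣 ∧ ψ (Ideal.span {x}) ≠ 1

/-- `L(s) = ∑ ψ(𝔞) N(𝔞)^(-s)` for `Re s > 1`. -/
def IsHeckeL (ψ : Ideal (𝓞 K) →*₀ ℂ) (L : ℂ → ℂ) : Prop :=
  ∀ s : ℂ, 1 < s.re →
    HasSum (fun 𝔞 : Ideal (𝓞 K) => ψ 𝔞 * ((Ideal.absNorm 𝔞 : ℕ) : ℂ) ^ (-s)) (L s)

end hecke

/-! ### Completions and products -/

/-- `Λ` is the completion of the L-function `L` of degree `n`: `Λ` is entire, of finite order in
vertical strips, `Λ(s) = (s (s - 1))^c N^(s/2) Γ_ℝ(s)^a Γ_ℝ(s + 1)^b L(s)` for `Re s > 1` with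
`a + b = n` and `c ∈ {0, 1}`, and `Λ(s) = w conj Λ(1 - conj s)`.  (The factor `s (s - 1)` removes the
poles of the Dedekind zeta functions.) -/
structure IsCompletion (n : ℕ) (L Λ : ℂ → ℂ) : Prop where
  entire : Differentiable ℂ Λ
  growth : ∀ B : ℝ, ∃ (A : ℝ) (m : ℕ), ∀ s : ℂ, |s.re| ≤ B →
    ‖Λ s‖ ≤ Real.exp (A * (1 + ‖s‖) ^ m)
  formula : ∃ N a b c : ℕ, 0 < N ∧ a + b = n ∧ c ≤ 1 ∧ ∀ s : ℂ, 1 < s.re →
    Λ s = (s * (s - 1)) ^ c *
      ((N : ℂ) ^ (s / 2) * Complex.Gammaℝ s ^ a * Complex.Gammaℝ (s + 1) ^ b * L s)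
  fe : ∃ w : ℂ, ∀ s : ℂ, Λ s = w * (starRingEnd ℂ) (Λ (1 - (starRingEnd ℂ) s))

/-- `f = ξ Λ_1 ⋯ Λ_n`, where `Λ_i` is the completion of the L-function `L_i` of a primitive ray class
character of a number field, and `L_1 ⋯ L_n` is real on `(1, ∞)`. -/
def IsProduct (f : ℂ → ℂ) : Prop :=
  ∃ (n : ℕ) (d : Fin n → ℕ) (L Λ : Fin n → ℂ → ℂ),
    (∀ i, (∃ (K : Type) (_ : Field K) (_ : NumberField K) (𝔣 : Ideal (𝓞 K))
      (ψ : Ideal (𝓞 K) →*₀ ℂ), IsPrimChar K 𝔣 ψ ∧ IsHeckeL K ψ (L i) ∧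
        d i = Module.finrank ℚ K) ∧ IsCompletion (d i) (L i) (Λ i)) ∧
    (∀ σ : ℝ, 1 < σ → (∏ i, L i σ).im = 0) ∧ ∀ s, f s = xi s * ∏ i, Λ i s

/-- The elements of the number field `k` with image in `K` which are quotients of two integers of `k` all of whose
conjugates have absolute value at most `T`. -/
def Points (k : Type) [Field k] [NumberField k] (ι : k →+* ℂ) (K : Set ℂ) (T : ℝ) : Set k :=
  {x | ι x ∈ K ∧ ∃ a b : 𝓞 k, b ≠ 0 ∧ (∀ φ : k →+* ℂ, ‖φ a‖ ≤ T ∧ ‖φ b‖ ≤ T) ∧ x = a / b}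

/-- The `N`-tuples `t` of points of `k` for which there is a polynomial `P` of degree at most `d` in each variable, with
coefficients of the form `∑ ξ_i ι(c_i)`, where the `c_i` are integers of `k` all of whose conjugates have absolute value
at most `T ^ A`, such that the value of `P` at the numbers `g_i(t_l)`, `l ≤ N`, `i ≤ n`, is at most `T ^ (-B)` times the
absolute value of some nonzero coefficient of `P`. -/
def Exceptional {n : ℕ} (g : Fin n → ℂ → ℂ) (N d : ℕ) {h : ℕ} (k : Type) [Field k] [NumberField k] (ι : k →+* ℂ)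
    (ξ : Fin h → ℂ) (K : Set ℂ) (A B T : ℝ) : Set (Fin N → k) :=
  {t | (∀ l, t l ∈ Points k ι K T) ∧ ∃ P : MvPolynomial (Fin N × Fin n) ℂ,
    (∀ x, P.degreeOf x ≤ d) ∧
    (∀ s, ∃ c : Fin h → 𝓞 k, (∀ i (φ : k →+* ℂ), ‖φ (c i)‖ ≤ T ^ A) ∧ P.coeff s = ∑ i, ξ i * ι (c i)) ∧
    ∃ s₀, P.coeff s₀ ≠ 0 ∧
      ‖MvPolynomial.aeval (fun x : Fin N × Fin n => g x.2 (ι (t x.1))) P‖ ≤ T ^ (-B) * ‖P.coeff s₀‖}

/-! ### Proofs -/

theorem prim_iff {K : Type} [Field K] [NumberField K] {𝔣 : Ideal (𝓞 K)} {ψ : Ideal (𝓞 K) →*₀ ℂ}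
    (h : IsPrimChar K 𝔣 ψ) : Pool.Agent.Y773.G.IsPrimChar K 𝔣 ψ :=
  ⟨h.ne_bot, h.supp, h.ray, h.prim⟩

theorem comp_iff {n : ℕ} {L Λ : ℂ → ℂ} :
    IsCompletion n L Λ ↔ Pool.Agent.Y149.AR.IsComp n L Λ :=
  ⟨fun h => ⟨h.entire, h.growth, h.formula, h.fe⟩, fun h => ⟨h.entire, h.growth, h.formula, h.fe⟩⟩

theorem core {f : ℂ → ℂ} (h : IsProduct f) : Pool.Agent.Y922.AQ.Good f ∧
    (∃ w : ℂ, ∀ s : ℂ, f (1 - s) = w * f s) ∧
    (∀ s : ℂ, f (starRingEnd ℂ s) = starRingEnd ℂ (f s)) ∧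
    ∃ t : ℝ, 0 < t ∧ f (1 / 2 + t * Complex.I) = 0 := by
  obtain ⟨n, d, L, Λ, h1, h2, h3⟩ := h
  have hf : f = Pool.Agent.Y149.AR.XL (fun s => ∏ i, Λ i s) := by
    funext s
    exact h3 s
  have hc : ∀ i, Pool.Agent.Y149.AR.IsComp (d i) (L i) (Λ i) := fun i => comp_iff.1 (h1 i).2
  rw [hf]
  refine ⟨Pool.Agent.Y149.AR.good_prod Λ fun i => ?_, Pool.Agent.Y149.AR.prod_fe hc h2,
    Pool.Agent.Y149.AR.prod_conj hc h2, Pool.Agent.Y149.AR.zero_XL _⟩
  obtain ⟨⟨K, hK1, hK2, 𝔣, ψ, hψ, hL, hd⟩, -⟩ := h1 i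
  refine Pool.Agent.Y149.AR.good_comp (hc i) (by rw [hd]; exact Module.finrank_pos) ?_
  have h4 := Pool.Agent.Y149.AR.logBd_LI ψ (Pool.Agent.Y149.AR.prim_norm (prim_iff hψ))
  refine Pool.Agent.Y149.AR.logBd_congr h4 fun s hs => ?_
  exact (hL s hs).tsum_eq.symm

theorem unr : Pool.Agent.Y149.AR.S_UNR := Pool.Agent.Y759.AR.unr Pool.Agent.Y824.AR.ft

section dedekind

variable (E : Type) [Field E] [NumberField E]

open Classical in
/-- the trivial character -/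
noncomputable def triv : Ideal (𝓞 E) →*₀ ℂ where
  toFun 𝔞 := if 𝔞 = ⊥ then 0 else 1
  map_zero' := if_pos rfl
  map_one' := by
    rw [if_neg]
    rw [Ideal.one_eq_top]
    exact top_ne_bot
  map_mul' 𝔞 𝔟 := by
    by_cases h1 : 𝔞 = ⊥
    · rw [h1, Ideal.bot_mul, if_pos rfl, zero_mul]
    · by_cases h2 : 𝔟 = ⊥
      · rw [h2, Ideal.mul_bot, if_pos rfl, mul_zero]
      · have h3 : 𝔞 * 𝔟 ≠ ⊥ := mul_ne_zero h1 h2
        rw [if_neg h1, if_neg h2, if_neg h3, one_mul]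

theorem triv_of_ne {𝔞 : Ideal (𝓞 E)} (h : 𝔞 ≠ ⊥) : triv E 𝔞 = 1 := if_neg h

theorem triv_prim : IsPrimChar E ⊤ (triv E) where
  ne_bot := top_ne_bot
  supp 𝔞 h := by
    rw [triv_of_ne E h]
    refine ⟨fun _ => ?_, fun _ => one_ne_zero⟩
    rw [Ideal.isCoprime_iff_sup_eq, sup_top_eq]
  ray x hx _ _ := triv_of_ne E fun h => hx (Ideal.span_singleton_eq_bot.1 h)
  prim 𝔤 h1 h2 := by
    exfalso
    apply h2
    rw [← Ideal.one_eq_top] at h1 ⊢
    exact Ideal.isUnit_iff.1 (isUnit_of_dvd_one h1) |>.trans Ideal.one_eq_top.symm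

theorem triv_hecke : IsHeckeL E (triv E) (dedekindZeta E) := by
  intro s hs
  have h1 := Pool.Agent.H484R2.hasSum_ideals E hs
  rw [← Pool.Agent.H484R2.zeta_eq E hs] at h1
  have hinj : Function.Injective (Subtype.val : Pool.Agent.H484R2.NZI E → Ideal (𝓞 E)) :=
    Subtype.val_injective
  rw [← hinj.hasSum_iff (f := fun 𝔞 : Ideal (𝓞 E) =>
    triv E 𝔞 * ((Ideal.absNorm 𝔞 : ℕ) : ℂ) ^ (-s))]
  · refine h1.congr_fun fun I => ?_
    show triv E I.1 * _ = _
    rw [triv_of_ne E I.2, one_mul]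
  · intro 𝔞 h𝔞
    have h2 : 𝔞 = ⊥ := by
      by_contra h3
      exact h𝔞 ⟨⟨𝔞, h3⟩, rfl⟩
    rw [h2]
    show triv E ⊥ * _ = 0
    have h3 : triv E ⊥ = 0 := if_pos rfl
    rw [h3, zero_mul]

theorem zeta_real (σ : ℝ) (hσ : 1 < σ) : (dedekindZeta E σ).im = 0 := by
  have h1 := triv_hecke E σ (by simpa using hσ)
  have h2 := Complex.imCLM.hasSum h1
  have h3 : (fun 𝔞 : Ideal (𝓞 E) => Complex.imCLM
      (triv E 𝔞 * ((Ideal.absNorm 𝔞 : ℕ) : ℂ) ^ (-(σ : ℂ)))) = fun _ => 0 := by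
    funext 𝔞
    rw [Complex.imCLM_apply]
    by_cases h4 : 𝔞 = ⊥
    · have h5 : triv E 𝔞 = 0 := if_pos h4
      rw [h5, zero_mul, Complex.zero_im]
    · rw [triv_of_ne E h4, one_mul]
      have h5 : ((Ideal.absNorm 𝔞 : ℕ) : ℂ) ^ (-(σ : ℂ)) =
          ((((Ideal.absNorm 𝔞 : ℕ) : ℝ) ^ (-σ) : ℝ) : ℂ) := by
        rw [Complex.ofReal_cpow (Nat.cast_nonneg _)]
        push_cast
        rfl
      rw [h5, Complex.ofReal_im]
  have h4 : HasSum (fun _ : Ideal (𝓞 E) => (0 : ℝ)) (dedekindZeta E σ).im := by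
    rw [← h3]
    exact h2
  exact h4.unique hasSum_zero

end dedekind

/-- **Main theorem.**

1. Every primitive ray class character of every number field has an L-function with a completion.
2. The Dedekind zeta function of every number field `E` has a completion `Λ`, and `ξ Λ` is one of the
   products considered here.
3. Let `f` be such a product, `K` a compact set in `ℂ`, and `g_1, …, g_n` functions which are analytic
   at every point of `K` with `f(g_i(b)) = b` for `b` near `K`, `g_i(a) ≠ g_j(a)` and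
   `g_i(a) + g_j(a) ≠ 1` for `a ∈ K` and `i ≠ j`.  For all `m`, `N`, `h`, `d`, `A` and `ε > 0` there are
   `B`, `C`, `T₀` such that for every number field `k` of degree at most `m`, every embedding of `k` in
   `ℂ`, all complex numbers `ξ_1, …, ξ_h` and all `T ≥ T₀` the number of exceptional `N`-tuples of
   levels is at most `C T^ε M^(N - 1)`, where `M` is the number of points. -/
theorem result :
    (∀ (K : Type) [Field K] [NumberField K] (𝔣 : Ideal (𝓞 K)) (ψ : Ideal (𝓞 K) →*₀ ℂ),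
      IsPrimChar K 𝔣 ψ → ∃ L Λ : ℂ → ℂ, IsHeckeL K ψ L ∧
        IsCompletion (Module.finrank ℚ K) L Λ) ∧
    (∀ (E : Type) [Field E] [NumberField E],
      (∃ Λ : ℂ → ℂ, IsCompletion (Module.finrank ℚ E) (dedekindZeta E) Λ) ∧
      ∀ Λ : ℂ → ℂ, IsCompletion (Module.finrank ℚ E) (dedekindZeta E) Λ →
        IsProduct (fun s => xi s * Λ s)) ∧
    ∀ f : ℂ → ℂ, IsProduct f → ∀ {n : ℕ} (g : Fin n → ℂ → ℂ) (K : Set ℂ), IsCompact K →
      (∀ i, ∀ a ∈ K, AnalyticAt ℂ (g i) a) → (∀ i, ∀ a ∈ K, ∀ᶠ b in 𝓝 a, f (g i b) = b) →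
      (∀ a ∈ K, ∀ i j, i ≠ j → g i a ≠ g j a ∧ g i a + g j a ≠ 1) →
      ∀ (m N h d : ℕ) (A ε : ℝ), 0 < ε →
        ∃ B C T₀ : ℝ, ∀ (k : Type) [Field k] [NumberField k], Module.finrank ℚ k ≤ m →
          ∀ (ι : k →+* ℂ) (ξ : Fin h → ℂ) (T : ℝ), T₀ ≤ T →
            (Exceptional g N d k ι ξ K A B T).Finite ∧
            ((Exceptional g N d k ι ξ K A B T).ncard : ℝ) ≤
              C * T ^ ε * ((Points k ι K T).ncard : ℝ) ^ (N - 1) := by
  refine ⟨?_, ?_, ?_⟩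
  · intro K _ _ 𝔣 ψ hψ
    obtain ⟨Λ, hΛ⟩ := Pool.Agent.Y149.AR.exists_comp unr (prim_iff hψ)
      (L := Pool.Agent.Y773.LI ψ) (fun _ _ => rfl)
    refine ⟨_, Λ, fun s hs => ?_, comp_iff.2 hΛ⟩
    have hs1 := Pool.Agent.Y772.DK.term_summable (a := fun 𝔞 => ψ 𝔞) (map_zero ψ)
      (Pool.Agent.Y149.AR.prim_norm (prim_iff hψ)) hs
    exact hs1.of_norm.hasSum
  · intro E _ _
    refine ⟨?_, fun Λ hΛ => ⟨1, fun _ => Module.finrank ℚ E, fun _ => dedekindZeta E, fun _ => Λ,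
      fun _ => ⟨⟨E, _, _, ⊤, triv E, triv_prim E, triv_hecke E, rfl⟩, hΛ⟩,
      fun σ hσ => ?_, fun s => ?_⟩⟩
    · obtain ⟨Λ, hΛ⟩ := Pool.Agent.Y149.AR.exists_comp unr (prim_iff (triv_prim E))
        (L := dedekindZeta E) (fun s hs => (triv_hecke E s hs).tsum_eq.symm)
      exact ⟨Λ, comp_iff.2 hΛ⟩
    · rw [Fin.prod_univ_one]
      exact zeta_real E σ hσ
    · rw [Fin.prod_univ_one]
  · intro f hf n g K hK hg hgx hne m N h d A ε hε
    classical
    obtain ⟨c1, c2, c3, c4⟩ := core hf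
    obtain ⟨B, C, T₀, hC, hT₀, HH⟩ := Y124.excNF (h := Fin h) m N d (fun a (i : Fin n) => g i a) K
      (fun g' => Y922.AP.oneLevels (f := f) (fun n P hP a₀ g h3 h4 h5 =>
        Pool.Agent.Y149.AR.gen_fun c1 c2 c3 c4 n P hP a₀ g h3 h4 h5) g' g K hK hg hgx hne) A ε hε
    refine ⟨B, C, T₀, fun F _ _ hF ι ξ T hT => ?_⟩
    have hT0 : 0 ≤ T := by linarith
    have hP : Points F ι K T = {x : F | Y120.HtLe F T x ∧ ι x ∈ K} := by
      ext x
      constructor
      · rintro ⟨h1, a, b, hb, hab, hx⟩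
        exact ⟨⟨a, b, hb, Y120.house_le F hT0 fun φ => (hab φ).1,
          Y120.house_le F hT0 fun φ => (hab φ).2, hx⟩, h1⟩
      · rintro ⟨⟨a, b, hb, ha, hb', hx⟩, h1⟩
        exact ⟨h1, a, b, hb, fun φ => ⟨(Y120.house_ge F _ φ).trans ha,
          (Y120.house_ge F _ φ).trans hb'⟩, hx⟩
    have hsub : Exceptional g N d F ι ξ K A B T ⊆
        Y124.ExcNF N d F ι ξ (fun a (i : Fin n) => g i a) K A B T := by
      rintro t ⟨ht, P, hPd, hPc, s₀, hs₀, hs⟩
      refine ⟨fun j => ?_, P, hPd, hPc, s₀, hs₀, hs⟩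
      have h1 := ht j
      rw [hP] at h1
      exact h1
    obtain ⟨h1, h2⟩ := HH F hF ι ξ T hT
    refine ⟨h1.subset hsub, ?_⟩
    rw [hP]
    exact le_trans (by exact_mod_cast Set.ncard_le_ncard hsub h1) h2

end Pool.Agent.Results.MP_3b6604_nt.AlgebraicLevels
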