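import Pool.Agent.Y772.ND.Pub4
import Pool.Agent.Y824.AR.Ft
import Pool.Agent.Y319.ND.Mer
import Pool.Agent.Y314.ND.Frb
import Pool.Agent.Y941.ND.Cnt

/-!
# The divisors of Dedekind zeta functions are linearly independent

Let `F/ℚ` be a finite Galois extension, with any group, and `E_1, …, E_k` subfields of `F`.  Let
`a_i(p)` be the number of prime ideals of degree one of `E_i` above the prime number `p` (the value at
a Frobenius element of the permutation character of `Gal(F/ℚ)` on the cosets of `Gal(F/E_i)`).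
Without any hypothesis:

1. for all real `λ_i` such that `∑ λ_i a_i(p) ≠ 0` for infinitely many `p` there is `c > 0` such that
   for all large `T` at least `c T log T` points `s` with `0 < Re s < 1`, `T < Im s ≤ 2T` satisfy
   `∑ λ_i ord_s ζ_{E_i} ≠ 0`;
2. for all integers `n_i` such that `∑ n_i a_i(p) ≠ 0` for infinitely many `p` and
   `∑ n_i [E_i : ℚ] = 0`, the meromorphic function `∏ ζ_{E_i}^{n_i}` has at least `c T log T` zeros and
   at least `c T log T` poles in this box, counted with multiplicity.

(If `∑ λ_i a_i(p) = 0` for almost all `p`, then the virtual character is zero and so is the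
combination of the divisors.)  In terms of Artin L-functions: every rational valued character is a
rational combination of these permutation characters (Artin), so, for instance, if the group is a
symmetric group, the divisors of all `L(s, χ, F/ℚ)`, `χ` irreducible, are linearly independent over
`ℝ`, even modulo `o(T log T)` points.

The definitions are in `Pool/Agent/Y772/ND/Pub4.lean` (`IsZeta`, `deg1`, `prodZ`), `Pub.lean`
(`unbalanced`), `Pub2.lean` (`zerosIn`, `polesIn`) and `Trn.lean` (`Box`).
-/

open NumberField Filter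
open Pool.Agent.Y772.ND.Pub (IsZeta deg1 prodZ unbalanced zerosIn polesIn Box)

namespace Pool.Agent.Results.MP_3b6604_nt.DedekindDivisors

/-- **Main theorem.** -/
theorem result (F : Type) [Field F] [NumberField F] (hG : IsGalois ℚ F) (ι : Type) [Fintype ι]
    (E : ι → IntermediateField ℚ F) :
    ∃ Z : ι → ℂ → ℂ, (∀ i, IsZeta (E i) (Z i)) ∧
      (∀ lam : ι → ℝ, {p : ℕ | p.Prime ∧ ∑ i, lam i * (deg1 (E i) p : ℝ) ≠ 0}.Infinite →
        ∃ c : ℝ, 0 < c ∧ ∀ᶠ T : ℝ in atTop,
          c * T * Real.log T ≤ ((unbalanced Z lam T).ncard : ℝ)) ∧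
      (∀ n : ι → ℤ, {p : ℕ | p.Prime ∧ ∑ i, n i * (deg1 (E i) p : ℤ) ≠ 0}.Infinite →
        ∑ i, n i * (Module.finrank ℚ (E i) : ℤ) = 0 →
        ∃ c : ℝ, 0 < c ∧ ∀ᶠ T : ℝ in atTop,
          c * T * Real.log T ≤ (zerosIn (prodZ Z n) (Box T) : ℝ) ∧
          c * T * Real.log T ≤ (polesIn (prodZ Z n) (Box T) : ℝ)) :=
  Pool.Agent.Y772.ND.Pub.main_zeta (Pool.Agent.Y759.AR.unr Pool.Agent.Y824.AR.ft)
    Pool.Agent.Y319.ND.t_MER Pool.Agent.Y314.ND.t_FRB Pool.Agent.Y941.ND.t_CNT F hG E

end Pool.Agent.Results.MP_3b6604_nt.DedekindDivisors
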