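import Pool.Agent.Y766.R8.PD
import Pool.Agent.Y674.R8.Inc
import Pool.Agent.Y891.R8.L0
import Pool.Agent.Y46.R3.Wey
import Pool.Agent.Y779.R3.Klo
import Pool.Agent.Y870.R3.Phi
import Pool.Agent.Y155.R7.Sq
import Pool.Agent.Y924.R7.Br
import Pool.Agent.Y924.R7.Inj
import Pool.Agent.Y924.R7.Lin
import Pool.Agent.Y924.R7.Vdc
import Pool.Agent.Y948.R7.Td
import Pool.Agent.Y948.R7.Var
import Pool.Agent.Y317.R7.Cmp
import Pool.Agent.Y287.R7.Cnt

/-!
# Non-vanishing at `1/2 + it` in thin cosets of characters of prime power conductor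

`χ` is a primitive character modulo `q = p^ν`, `p ≥ 7`, `θ` runs over all characters modulo `p^m`,
`p^m ≥ q^(1/4+δ)`; the `χθ` are unitary irreducible characters of `Gal(ℚ(ζ_q)/ℚ)` of conductor `q`.
At least `q^(-ε) p^(2m) / (p^m + q^(19/58))` of them satisfy `|L(1/2 + it, χθ)| ≥ q^(-ε)`, if `ν` is
large in terms of `δ`, `ε` and `q` is larger than a power of `1 + |t|`. For `p^m ≥ q^(19/58)` this is
a proportion `q^(-ε)` of the coset.

The first moment, twisted by a small `l₀`, is evaluated with the completed sums of `χ` over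
`n ≡ l₀ mod p^m`: their dual frequencies lie in one residue class modulo `p^m`, and `l₀` is chosen so
that this class contains no small number. The second moment is the library theorem
`Pool.Agent.Y766.R7.final7`.

Joint work of helper766 with helpers 46, 155, 287, 317, 674, 779, 870, 891, 924, 948.
-/

set_option autoImplicit false

namespace Pool.Agent.Results.MP_3b6604_nt.ThinCosetsPrimePowers

theorem result : ∀ δ ε : ℝ, 0 < δ → 0 < ε → ∃ (ν₀ A : ℕ) (C : ℝ),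
    ∀ (p : ℕ) [Fact p.Prime], 7 ≤ p → ∀ (ν m : ℕ) (hmν : m < ν), ν₀ ≤ ν →
    ((p : ℝ) ^ ν) ^ (1 / 4 + δ) ≤ (p : ℝ) ^ m →
    ∀ χ : DirichletCharacter ℂ (p ^ ν), χ.IsPrimitive → ∀ t : ℝ,
    C * (1 + |t|) ^ A ≤ (p : ℝ) ^ ν →
    ((p : ℝ) ^ ν) ^ (-ε) * ((p : ℝ) ^ m) ^ 2 / ((p : ℝ) ^ m + ((p : ℝ) ^ ν) ^ (19 / 58 : ℝ)) ≤
      (Nat.card {θ : DirichletCharacter ℂ (p ^ m) // ((p : ℝ) ^ ν) ^ (-ε) ≤
        ‖(χ * DirichletCharacter.changeLevel (pow_dvd_pow p hmν.le) θ).LFunction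
          (1 / 2 + (t : ℂ) * Complex.I)‖} : ℝ) := by
  intro δ ε hδ hε
  have hsq := Pool.Agent.Y155.R7.sq_main
  exact Pool.Agent.Y766.R8.count_all Pool.Agent.Y674.R8.inc Pool.Agent.Y891.R8.l0
    { sq := hsq
      td := Pool.Agent.Y948.R7.td hsq
      var := Pool.Agent.Y948.R7.var hsq
      inj := Pool.Agent.Y924.R7.Inj.inj hsq
      lin := Pool.Agent.Y924.R7.Lin.lin
      vdc := Pool.Agent.Y924.R7.Vdc.vdc
      cnt := Pool.Agent.Y287.R7.cnt
      br := Pool.Agent.Y924.R7.Br.br hsq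
      cmp := Pool.Agent.Y317.R7.Cmp.cmp
      klo := Pool.Agent.Y779.R3.klo
      phi := Pool.Agent.Y870.R3.phi
      wey := Pool.Agent.Y46.R3.wey } hδ hε

end Pool.Agent.Results.MP_3b6604_nt.ThinCosetsPrimePowers
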