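import Pool.Agent.Y773.NV.Fin
import Pool.Agent.Y773.HK.Art
import Pool.Agent.Y48.NV.Rst
import Pool.Agent.Y665.NV.Inv
import Pool.Agent.Y25.NV.Uni

/-!
# Non-vanishing of Artin L-functions of degree two over `ℚ`, every modulus

Let `K` be an imaginary quadratic field and `𝔮` a nonzero ideal of `K`.  By class field theory the
characters of `Gal(K(𝔮)/K)`, `K(𝔮)` the ray class field modulo `𝔮`, are the primitive ray class
characters `ψ` whose conductor divides `𝔮`.  The L-function `L(s, ψ)` is the Artin L-function over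
`ℚ` of the induced representation `Ind ψ` of dimension two of the Galois group of the Galois closure
of `K(𝔮)`; the representation is irreducible if and only if `ψ ≠ ψ^σ` (Mackey), and it is not
self-dual (unitary, that is, neither orthogonal nor symplectic) if moreover the complex conjugate of
`ψ` is neither `ψ` nor `ψ^σ`.

We prove, without any hypothesis, for every imaginary quadratic field and *every* modulus `𝔮` of
large norm: for every real `t` with `|t| ≤ B` at least the proportion `1/3 - ε` of these characters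
induce irreducible unitary representations of dimension two with `L(1/2 + it, Ind ψ) ≠ 0`.  No
average over `𝔮` is taken.  In particular a real number is an ordinate of a zero on the critical
line for at most the proportion `2/3 + ε` of them.

The proof (mollified first and second moments over the primitive characters of every conductor) is
by helper773; parts of it are due to helpers 25, 48, 165, 185, 210, 279, 340, 419, 421, 448, 462,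
474, 665, 871, 888, 960, 961, 977.
-/

open NumberField

namespace Pool.Agent.Results.MP_3b6604_nt.ThirdEveryModulus

section chars

variable {K : Type} [Field K] [NumberField K]

/-- `ψ` is a primitive ray class character of conductor `𝔣` (`K` has no real places), as a
completely multiplicative function on the ideals, zero on the ideals not prime to `𝔣`. -/
structure IsPrimitive (𝔣 : Ideal (𝓞 K)) (ψ : Ideal (𝓞 K) →*₀ ℂ) : Prop where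
  ne_bot : 𝔣 ≠ ⊥
  supp : ∀ 𝔞 : Ideal (𝓞 K), 𝔞 ≠ ⊥ → (ψ 𝔞 ≠ 0 ↔ IsCoprime 𝔞 𝔣)
  ray : ∀ x : 𝓞 K, x ≠ 0 → x - 1 ∈ 𝔣 → ψ (Ideal.span {x}) = 1
  prim : ∀ 𝔤 : Ideal (𝓞 K), 𝔤 ∣ 𝔣 → 𝔤 ≠ 𝔣 →
    ∃ x : 𝓞 K, x - 1 ∈ 𝔤 ∧ IsCoprime (Ideal.span {x}) 𝔣 ∧ ψ (Ideal.span {x}) ≠ 1

/-- the primitive ray class characters whose conductor divides `𝔮` and is not `(1)` -/
def family (𝔮 : Ideal (𝓞 K)) : Set (Ideal (𝓞 K) →*₀ ℂ) :=
  {ψ | ∃ 𝔣 : Ideal (𝓞 K), 𝔣 ∣ 𝔮 ∧ 𝔣 ≠ ⊤ ∧ IsPrimitive 𝔣 ψ}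

/-- `χ` is a (not necessarily primitive) character of the ray class group modulo `𝔮` -/
structure IsRayClassChar (𝔮 : Ideal (𝓞 K)) (χ : Ideal (𝓞 K) →*₀ ℂ) : Prop where
  supp : ∀ 𝔞 : Ideal (𝓞 K), 𝔞 ≠ ⊥ → (χ 𝔞 ≠ 0 ↔ IsCoprime 𝔞 𝔮)
  ray : ∀ x : 𝓞 K, x ≠ 0 → x - 1 ∈ 𝔮 → χ (Ideal.span {x}) = 1

/-- `σ(𝔞)`, for an automorphism `σ` of `K` -/
noncomputable def galConj (σ : K ≃ₐ[ℚ] K) (𝔞 : Ideal (𝓞 K)) : Ideal (𝓞 K) :=
  𝔞.map (RingOfIntegers.mapRingEquiv (σ : K ≃+* K))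

/-- the representation of `Gal(ℚ̄/ℚ)` induced by `ψ` is irreducible (Mackey's criterion, `K`
quadratic): `ψ ∘ σ ≠ ψ` for the nontrivial automorphism `σ` of `K` -/
def IndIrreducible (ψ : Ideal (𝓞 K) →*₀ ℂ) : Prop :=
  ∃ (σ : K ≃ₐ[ℚ] K) (𝔞 : Ideal (𝓞 K)), ψ (galConj σ 𝔞) ≠ ψ 𝔞

/-- the (irreducible) representation induced by `ψ` is not self-dual: the complex conjugate of `ψ`
is different from `ψ` and from `ψ ∘ σ` -/
def IndUnitary (ψ : Ideal (𝓞 K) →*₀ ℂ) : Prop :=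
  ∀ σ : K ≃ₐ[ℚ] K, ∃ 𝔞 : Ideal (𝓞 K), ψ (galConj σ 𝔞) ≠ (starRingEnd ℂ) (ψ 𝔞)

/-- `F` is the entire function `L(s, ψ)`, given by its Euler product (over the prime ideals of `K`)
for `Re s > 1` -/
def IsL (ψ : Ideal (𝓞 K) →*₀ ℂ) (F : ℂ → ℂ) : Prop :=
  Differentiable ℂ F ∧ ∀ s : ℂ, 1 < s.re →
    HasProd (fun 𝔭 : {𝔭 : Ideal (𝓞 K) // Prime 𝔭} =>
      (1 - ψ 𝔭 * ((Ideal.absNorm (𝔭 : Ideal (𝓞 K)) : ℕ) : ℂ) ^ (-s))⁻¹) (F s)

/-- the Euler polynomial at `p` of the induced representation: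
`∏_{𝔭 ∣ p} (1 - ψ(𝔭) x^(f(𝔭)))`, where `f(𝔭)` is the residue degree -/
noncomputable def heckePoly (ψ : Ideal (𝓞 K) →*₀ ℂ) (p : ℕ) (x : ℂ) : ℂ :=
  ∏ᶠ 𝔭 ∈ {𝔭 : Ideal (𝓞 K) | 𝔭.IsPrime ∧ (p : 𝓞 K) ∈ 𝔭}, (1 - ψ 𝔭 * x ^ (𝔭.inertiaDeg ℤ))

end chars

section artin

variable {E : Type} [Field E] [NumberField E] {V : Type} [AddCommGroup V] [Module ℂ V]

/-- the inertia group of `P` in `Gal(E/ℚ)` -/
def inertia (P : Ideal (𝓞 E)) : Set (E ≃ₐ[ℚ] E) :=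
  {τ | ∀ x y : 𝓞 E, (y : E) = τ (x : E) → y - x ∈ P}

/-- `σ` is a Frobenius element at the prime ideal `P` above `p`: `σ x ≡ x^p mod P`. -/
def IsFrob (p : ℕ) (P : Ideal (𝓞 E)) (σ : E ≃ₐ[ℚ] E) : Prop :=
  P.IsPrime ∧ (p : 𝓞 E) ∈ P ∧ ∀ x y : 𝓞 E, (y : E) = σ (x : E) → y - x ^ p ∈ P

/-- The projection of `V` onto the subspace of the vectors fixed by the inertia group of `P`. -/
noncomputable def invProj (ρ : Representation ℂ (E ≃ₐ[ℚ] E) V) (P : Ideal (𝓞 E)) : V →ₗ[ℂ] V :=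
  ((inertia P).ncard : ℂ)⁻¹ • ∑ᶠ τ ∈ inertia P, ρ τ

/-- `det(1 - x ρ(σ) | V^I)`, where `I` is the inertia group of `P`. -/
noncomputable def eulerPoly (ρ : Representation ℂ (E ≃ₐ[ℚ] E) V) (P : Ideal (𝓞 E))
    (σ : E ≃ₐ[ℚ] E) (x : ℂ) : ℂ :=
  LinearMap.det (LinearMap.id - x • (ρ σ ∘ₗ invProj ρ P))

/-- `F` is the Artin L-function `L(s, ρ, E/ℚ)`, and it is entire: for `Re s > 1` it is the product
of `det(1 - p^(-s) ρ(Frob_p) | V^(I_p))⁻¹` over all primes `p` (for every choice of the primes above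
the `p` and of the Frobenius elements). -/
def IsArtinL (ρ : Representation ℂ (E ≃ₐ[ℚ] E) V) (F : ℂ → ℂ) : Prop :=
  Differentiable ℂ F ∧ ∀ (P : Nat.Primes → Ideal (𝓞 E)) (σ : Nat.Primes → (E ≃ₐ[ℚ] E)),
    (∀ p : Nat.Primes, IsFrob p (P p) (σ p)) → ∀ s : ℂ, 1 < s.re →
      HasProd (fun p : Nat.Primes => (eulerPoly ρ (P p) (σ p) (((p : ℕ) : ℂ) ^ (-s)))⁻¹) (F s)

/-- the representation `ρ` of `Gal(E/ℚ)` corresponds to `Ind ψ`: the Euler factors of its Artin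
L-function are those of `ψ` at every prime. -/
def Attached {K : Type} [Field K] [NumberField K] (ψ : Ideal (𝓞 K) →*₀ ℂ)
    (ρ : Representation ℂ (E ≃ₐ[ℚ] E) V) : Prop :=
  ∀ p : ℕ, p.Prime → ∀ (P : Ideal (𝓞 E)) (σ : E ≃ₐ[ℚ] E), IsFrob p P σ →
    ∀ x : ℂ, eulerPoly ρ P σ x = heckePoly ψ p x

end artin

/-- **Main theorem.** -/
theorem result (K : Type) [Field K] [NumberField K] [IsTotallyComplex K]
    (hK : Module.finrank ℚ K = 2) :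
    ∃ L : (Ideal (𝓞 K) →*₀ ℂ) → ℂ → ℂ,
      -- the L-functions
      (∀ (𝔣 : Ideal (𝓞 K)) (ψ : Ideal (𝓞 K) →*₀ ℂ), 𝔣 ≠ ⊤ → IsPrimitive 𝔣 ψ →
        IsL ψ (L ψ) ∧
        ∀ (E : Type) [Field E] [NumberField E] [IsGalois ℚ E]
          (V : Type) [AddCommGroup V] [Module ℂ V] [FiniteDimensional ℂ V]
          (ρ : Representation ℂ (E ≃ₐ[ℚ] E) V), Attached ψ ρ → IsArtinL ρ (L ψ)) ∧
      -- the family
      (∀ 𝔮 : Ideal (𝓞 K), 𝔮 ≠ ⊥ → (family 𝔮).Finite ∧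
        ∀ χ : Ideal (𝓞 K) →*₀ ℂ, IsRayClassChar 𝔮 χ →
          (∃ x : 𝓞 K, x ≠ 0 ∧ IsCoprime (Ideal.span {x}) 𝔮 ∧ χ (Ideal.span {x}) ≠ 1) →
          ∃! ψ : Ideal (𝓞 K) →*₀ ℂ, ψ ∈ family 𝔮 ∧ ∀ 𝔞, IsCoprime 𝔞 𝔮 → ψ 𝔞 = χ 𝔞) ∧
      -- the values
      ∀ B ε : ℝ, 0 < ε → ∃ X₀ : ℝ, ∀ 𝔮 : Ideal (𝓞 K), 𝔮 ≠ ⊥ → X₀ ≤ (Ideal.absNorm 𝔮 : ℝ) →
        (family 𝔮).Nonempty ∧ ∀ t : ℝ, |t| ≤ B →
          (1 / 3 - ε) * ((family 𝔮).ncard : ℝ) ≤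
            (({ψ ∈ family 𝔮 | IndIrreducible ψ ∧ IndUnitary ψ ∧
              L ψ (1 / 2 + (t : ℂ) * Complex.I) ≠ 0}.ncard : ℕ) : ℝ) := by
  classical
  have hT := Pool.Agent.Y773.IQ.tpos_all (K := K)
  have hprim : ∀ (𝔣 : Ideal (𝓞 K)) (ψ : Ideal (𝓞 K) →*₀ ℂ), IsPrimitive 𝔣 ψ ↔
      Pool.Agent.Y773.G.IsPrimChar K 𝔣 ψ := by
    intro 𝔣 ψ
    constructor
    · intro h
      refine ⟨h.ne_bot, h.supp, fun x h0 h1 _ => h.ray x h0 h1, fun 𝔤 h1 h2 => ?_⟩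
      obtain ⟨x, h3, h4, h5⟩ := h.prim 𝔤 h1 h2
      exact ⟨x, h3, hT x, h4, h5⟩
    · intro h
      refine ⟨h.ne_bot, h.supp, fun x h0 h1 => h.ray x h0 h1 (hT x), fun 𝔤 h1 h2 => ?_⟩
      obtain ⟨x, h3, -, h4, h5⟩ := h.prim 𝔤 h1 h2
      exact ⟨x, h3, h4, h5⟩
  have hfam : ∀ 𝔮 : Ideal (𝓞 K), family 𝔮 = Pool.Agent.Y773.IQ.Fam 𝔮 := by
    intro 𝔮
    ext ψ
    constructor
    · rintro ⟨𝔣, h1, h2, h3⟩
      exact ⟨𝔣, h1, h2, (hprim 𝔣 ψ).mp h3⟩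
    · rintro ⟨𝔣, h1, h2, h3⟩
      exact ⟨𝔣, h1, h2, (hprim 𝔣 ψ).mpr h3⟩
  refine ⟨Pool.Agent.Y773.IQ.LL K, ?_, ?_, ?_⟩
  · -- the L-functions
    obtain ⟨A, hA, hgood⟩ := Pool.Agent.Y773.IQ.good K
    intro 𝔣 ψ htop hψ
    have hp := (hprim 𝔣 ψ).mp hψ
    obtain ⟨F, hF, hFL, -⟩ := hgood 𝔣 ψ htop hp
    rw [Pool.Agent.Y773.IQ.LL_eq K hF hFL]
    have hn := hp.norm_le_one Pool.Agent.Y772.G.t_sig
    have hprod : ∀ s : ℂ, 1 < s.re → HasProd (fun 𝔭 : {𝔭 : Ideal (𝓞 K) // Prime 𝔭} =>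
        (1 - ψ 𝔭 * ((Ideal.absNorm (𝔭 : Ideal (𝓞 K)) : ℕ) : ℂ) ^ (-s))⁻¹) (F s) := by
      intro s hs
      have h1 := (Pool.Agent.Y773.hasSum_log hn hs).cexp
      rw [← Pool.Agent.Y772.DK.LI_eq_exp ψ hn hs, ← hFL s hs] at h1
      refine h1.congr_fun fun 𝔭 => ?_
      have hz := Pool.Agent.Y773.norm_zz_lt hn hs 𝔭.2
      have hne : 1 - Pool.Agent.Y773.zz ψ s 𝔭.1 ≠ 0 := by
        intro h0
        have h5 : Pool.Agent.Y773.zz ψ s 𝔭.1 = 1 := (sub_eq_zero.mp h0).symm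
        rw [h5, norm_one] at hz
        exact lt_irrefl _ hz
      change _ = Complex.exp (-Complex.log (1 - Pool.Agent.Y773.zz ψ s 𝔭.1))
      rw [Complex.exp_neg, Complex.exp_log hne]
      rfl
    refine ⟨⟨hF, hprod⟩, ?_⟩
    have hprodQ : ∀ s : ℂ, 1 < s.re → HasProd (fun p : Nat.Primes =>
        (heckePoly ψ p (((p : ℕ) : ℂ) ^ (-s)))⁻¹) (F s) := by
      intro s hs
      have htw : Pool.Agent.Y773.tw ψ (1 : DirichletCharacter ℂ 1) = ψ := by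
        ext 𝔞
        change ψ 𝔞 * (1 : DirichletCharacter ℂ 1) ((Ideal.absNorm 𝔞 : ℕ) : ZMod 1) = ψ 𝔞
        rw [MulChar.one_apply (isUnit_of_subsingleton _), mul_one]
      have h1 := Pool.Agent.Y773.hasProd_tw hn (1 : DirichletCharacter ℂ 1) hs
      rw [htw, ← hFL s hs] at h1
      refine h1.congr_fun fun p => ?_
      rw [MulChar.one_apply (isUnit_of_subsingleton _), one_mul]
      rfl
    intro E _ _ _ V _ _ _ ρ hρ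
    refine ⟨hF, fun P σ hσ s hs => ?_⟩
    refine (hprodQ s hs).congr_fun fun p => ?_
    rw [hρ p p.2 (P p) (σ p) (hσ p)]
  · -- the family
    intro 𝔮 hbot
    rw [hfam]
    by_cases htop : 𝔮 = ⊤
    · subst htop
      refine ⟨?_, ?_⟩
      · have : Pool.Agent.Y773.IQ.Fam (⊤ : Ideal (𝓞 K)) = ∅ := by
          rw [Set.eq_empty_iff_forall_notMem]
          rintro ψ ⟨𝔣, h1, h2, -⟩
          exact h2 (top_le_iff.mp (Ideal.dvd_iff_le.mp h1))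
        rw [this]
        exact Set.finite_empty
      · rintro χ hχ ⟨x, hx0, hx1, hx2⟩
        exact absurd (hχ.ray x hx0 Submodule.mem_top) hx2
    refine ⟨(Pool.Agent.Y773.IQ.Fam_finite hbot htop hT).1, ?_⟩
    rintro χ hχ ⟨x, hx0, hx1, hx2⟩
    have hne : ∀ y : Pool.Agent.Y767.Mq 𝔮, χ (y : Ideal (𝓞 K)) ≠ 0 := fun y =>
      (hχ.supp _ (Pool.Agent.Y767.Mq_ne_bot htop y)).mpr (Pool.Agent.Y767.Mq_cop y)
    have hval : ∀ y : Pool.Agent.Y767.Mq 𝔮,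
        ((Pool.Agent.Y773.IQ.toM' χ hne y : ℂˣ) : ℂ) = χ (y : Ideal (𝓞 K)) := fun y => rfl
    rcases Pool.Agent.Y773.IQ.exists_prim hbot htop (Pool.Agent.Y773.IQ.toM' χ hne) (by
      intro y
      ext
      rw [hval, Pool.Agent.Y773.IQ.pi1_coe, Units.val_one]
      exact hχ.ray y (Pool.Agent.Y773.IQ.ne_zero_of_cop htop (Pool.Agent.Y773.IQ.T1_cop y)) y.2)
      with h | ⟨𝔣, ψ, h1, h2, h3, h4⟩
    · exfalso
      apply hx2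
      have h5 := congrArg (fun u : ℂˣ => (u : ℂ)) (h x hx1)
      exact h5
    · refine ⟨ψ, ⟨⟨𝔣, h1, h2, h3 hT⟩, fun 𝔞 h𝔞 => ?_⟩, ?_⟩
      · exact h4 ⟨𝔞, h𝔞⟩
      · rintro ψ' ⟨⟨𝔣', h1', h2', h3'⟩, h4'⟩
        refine Pool.Agent.Y773.IQ.prim_unique hT hbot h3' (h3 hT) h1' h1 h2' h2 fun 𝔞 h𝔞 => ?_
        rw [h4' 𝔞 h𝔞]
        exact (h4 ⟨𝔞, h𝔞⟩).symm
  · -- the values
    intro B ε hε
    obtain ⟨X₀, -, h⟩ := Pool.Agent.Y773.NV.fin (Pool.Agent.Y665.NV.t_inv Pool.Agent.Y48.NV.t_rst)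
      (Pool.Agent.Y25.NV.t_uni Pool.Agent.Y48.NV.t_rst) K hK B ε hε
    refine ⟨X₀, fun 𝔮 hbot hX => ?_⟩
    obtain ⟨-, h1, h2⟩ := h 𝔮 hbot hX
    rw [hfam]
    refine ⟨h1, fun t ht => ?_⟩
    refine (h2 t ht).trans (le_of_eq ?_)
    have : {ψ ∈ Pool.Agent.Y773.IQ.Fam 𝔮 | (Pool.Agent.Y773.NV.Irr ψ ∧ Pool.Agent.Y773.NV.Nsd ψ) ∧
        Pool.Agent.Y773.IQ.LL K ψ (1 / 2 + (t : ℂ) * Complex.I) ≠ 0} =
        {ψ ∈ Pool.Agent.Y773.IQ.Fam 𝔮 | IndIrreducible ψ ∧ IndUnitary ψ ∧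
        Pool.Agent.Y773.IQ.LL K ψ (1 / 2 + (t : ℂ) * Complex.I) ≠ 0} := by
      ext ψ
      constructor
      · rintro ⟨a1, ⟨a2, a3⟩, a4⟩
        exact ⟨a1, a2, a3, a4⟩
      · rintro ⟨a1, a2, a3, a4⟩
        exact ⟨a1, ⟨a2, a3⟩, a4⟩
    rw [this]

end Pool.Agent.Results.MP_3b6604_nt.ThirdEveryModulus
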